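import Mathlib

/-!
# Polynomials over the field of fractions
-/

set_option autoImplicit false

namespace Pool.Agent.Helper61.PD

open MvPolynomial

/-- Gauss: a prime polynomial of positive degree is irreducible over the field of fractions. -/
theorem irr_frac {A τ F : Type} [CommRing A] [IsDomain A] [Field F] [Algebra A F] [IsFractionRing A F]
    {f : MvPolynomial τ A} (hf : Prime f) (i : τ) (hi : degreeOf i f ≠ 0) :
    Irreducible (map (algebraMap A F) f) := by
  letI := MvPolynomial.algebraMvPolynomial (σ := τ) (R := A) (S := F)
  have hloc : IsLocalization ((nonZeroDivisors A).map (C (σ := τ))) (MvPolynomial τ F) :=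
    MvPolynomial.isLocalization (nonZeroDivisors A) F
  have hinj : Function.Injective (map (σ := τ) (algebraMap A F)) :=
    map_injective _ (IsFractionRing.injective A F)
  have hI : (Ideal.span {f} : Ideal (MvPolynomial τ A)).IsPrime :=
    (Ideal.span_singleton_prime hf.ne_zero).2 hf
  have hd : Disjoint (((nonZeroDivisors A).map (C (σ := τ)) : Submonoid (MvPolynomial τ A)) :
      Set (MvPolynomial τ A)) ((Ideal.span {f} : Ideal (MvPolynomial τ A)) :
      Set (MvPolynomial τ A)) := by
    rw [Set.disjoint_left]
    rintro _ ⟨a, ha, rfl⟩ hmem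
    have ha0 : a ≠ 0 := nonZeroDivisors.ne_zero ha
    rw [SetLike.mem_coe, Ideal.mem_span_singleton] at hmem
    obtain ⟨g, hg⟩ := hmem
    have hg0 : g ≠ 0 := by
      rintro rfl
      rw [mul_zero] at hg
      exact ha0 (C_injective _ _ (hg.trans C_0.symm))
    have h1 : degreeOf i (C a : MvPolynomial τ A) = degreeOf i f + degreeOf i g := by
      have : (C a : MvPolynomial τ A) = f * g := hg
      rw [this, degreeOf_mul_eq hf.ne_zero hg0]
    rw [degreeOf_C] at h1
    omega
  have h2 := IsLocalization.isPrime_of_isPrime_disjoint ((nonZeroDivisors A).map (C (σ := τ)))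
    (MvPolynomial τ F) (Ideal.span {f}) hI hd
  rw [Ideal.map_span, Set.image_singleton] at h2
  have h3 : map (algebraMap A F) f ≠ 0 := by
    intro h
    exact hf.ne_zero (hinj (h.trans (map_zero _).symm))
  have h4 : Prime (map (algebraMap A F) f) := (Ideal.span_singleton_prime h3).1 h2
  exact h4.irreducible

end Pool.Agent.Helper61.PD
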