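import Mathlib

/-!
# Some of the variables as coefficients
-/

set_option autoImplicit false
set_option linter.all false

namespace Pool.Agent.Helper61.PD

open MvPolynomial

theorem supp_sum {R S₁ S₂ : Type} [CommSemiring R] (f : MvPolynomial (S₁ ⊕ S₂) R) (d' : S₁ →₀ ℕ)
    (hd : d' ∈ (sumAlgEquiv R S₁ S₂ f).support) :
    ∃ m ∈ f.support, ∀ j, d' j = m (Sum.inl j) := by
  classical
  have h0 : ∀ (m : S₁ ⊕ S₂ →₀ ℕ) (a : R), sumAlgEquiv R S₁ S₂ (monomial m a) =
      monomial (Finsupp.sumFinsuppAddEquivProdFinsupp m).1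
        (monomial (Finsupp.sumFinsuppAddEquivProdFinsupp m).2 a) := by
    intro m a
    simp [sumAlgEquiv, monomial]
  rw [f.as_sum, map_sum] at hd
  have h1 := MvPolynomial.support_sum hd
  rw [Finset.mem_biUnion] at h1
  obtain ⟨m, hm, h2⟩ := h1
  rw [h0] at h2
  have h3 := support_monomial_subset h2
  rw [Finset.mem_singleton] at h3
  refine ⟨m, hm, fun j => ?_⟩
  rw [h3]
  rfl

variable {n m : ℕ} (c : Fin n → Option (Fin (m + 1)))

/-- the variables which are not parameters -/
abbrev Vr : Type := {i : Fin n // ¬ c i = none}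

/-- the parameters -/
abbrev Pr : Type := {i : Fin n // c i = none}

/-- numbering of the variables -/
noncomputable def eT : Vr c ≃ Fin (Fintype.card (Vr c)) := Fintype.equivFin _

/-- the variables and the parameters -/
noncomputable def e0 : Fin n ≃ Fin (Fintype.card (Vr c)) ⊕ Pr c :=
  ((Equiv.sumCompl (fun i => c i = none)).symm.trans (Equiv.sumComm _ _)).trans
    (Equiv.sumCongr (eT c) (Equiv.refl _))

theorem e0_symm_inl (j : Fin (Fintype.card (Vr c))) :
    (e0 c).symm (Sum.inl j) = ((eT c).symm j : Fin n) := rfl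

theorem e0_symm_inr (s : Pr c) : (e0 c).symm (Sum.inr s) = (s : Fin n) := rfl

/-- the blocks of the variables -/
noncomputable def bT (j : Fin (Fintype.card (Vr c))) : Fin (m + 1) :=
  (c ((eT c).symm j)).get (Option.ne_none_iff_isSome.1 ((eT c).symm j).2)

theorem some_bT (j : Fin (Fintype.card (Vr c))) : c ((eT c).symm j) = some (bT c j) := by
  rw [bT, Option.some_get]

/-- the variables of the block `a` -/
noncomputable def eB (a : Fin (m + 1)) :
    {j : Fin (Fintype.card (Vr c)) // bT c j = a} ≃ {i : Fin n // c i = some a} where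
  toFun j := ⟨(eT c).symm j.1, by rw [some_bT c, j.2]⟩
  invFun i := ⟨eT c ⟨i.1, by rw [i.2]; simp⟩, by
    have h := some_bT c (eT c ⟨i.1, by rw [i.2]; simp⟩)
    rw [Equiv.symm_apply_apply] at h
    exact (Option.some_injective _ (i.2.symm.trans h)).symm⟩
  left_inv j := by
    apply Subtype.ext
    show eT c ⟨((eT c).symm j.1 : Fin n), _⟩ = j.1
    have : (⟨((eT c).symm j.1 : Fin n), by
      rw [some_bT c]; simp⟩ : Vr c) = (eT c).symm j.1 := rfl
    rw [this, Equiv.apply_symm_apply]
  right_inv i := by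
    apply Subtype.ext
    show (((eT c).symm (eT c ⟨i.1, _⟩) : Vr c) : Fin n) = i.1
    rw [Equiv.symm_apply_apply]

variable (k : Type) [Field k]

/-- the parameters as coefficients -/
noncomputable def Ph : MvPolynomial (Fin n) k ≃ₐ[k]
    MvPolynomial (Fin (Fintype.card (Vr c))) (MvPolynomial (Pr c) k) :=
  (renameEquiv k (e0 c)).trans (sumAlgEquiv k _ _)

variable {k}

theorem Ph_X_inl (j : Fin (Fintype.card (Vr c))) :
    Ph c k (X ((e0 c).symm (Sum.inl j))) = X j := by
  rw [Ph, AlgEquiv.trans_apply, renameEquiv_apply, rename_X, Equiv.apply_symm_apply,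
    sumAlgEquiv_X_inl]

theorem Ph_X_inr (s : Pr c) :
    Ph c k (X ((e0 c).symm (Sum.inr s))) = C (X s) := by
  rw [Ph, AlgEquiv.trans_apply, renameEquiv_apply, rename_X, Equiv.apply_symm_apply,
    sumAlgEquiv_X_inr]

theorem supp_Ph (f : MvPolynomial (Fin n) k) (d' : Fin (Fintype.card (Vr c)) →₀ ℕ)
    (hd : d' ∈ (Ph c k f).support) : ∃ d ∈ f.support, ∀ j, d' j = d ((eT c).symm j) := by
  classical
  obtain ⟨q, hq, h1⟩ := supp_sum _ d' hd
  have hq' : q ∈ (rename (e0 c) f).support := hq
  rw [support_rename_of_injective (e0 c).injective, Finset.mem_image] at hq'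
  obtain ⟨d, hd1, rfl⟩ := hq'
  refine ⟨d, hd1, fun j => ?_⟩
  rw [h1, ← e0_symm_inl c j]
  have h2 : Sum.inl j = e0 c ((e0 c).symm (Sum.inl j)) := (Equiv.apply_symm_apply _ _).symm
  conv_lhs => rw [h2]
  exact Finsupp.mapDomain_apply (e0 c).injective d _

end Pool.Agent.Helper61.PD
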