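import Pool.Agent.Helper61.PD.Gauss
import Pool.Agent.Helper61.PD.Split
import Pool.Graph.R_pool_sql_team_seeded_63374d34.N128.DQ.Fin
import Pool.Graph.R_pool_sql_team_seeded_63374d34.N122.Dens
import Pool.Graph.R_pool_sql_team_seeded_63374d34.N230.FC.Ub

/-!
# Quadric bundles with parameters of arbitrary degree
-/

set_option autoImplicit false
set_option linter.all false

namespace Pool.Agent.Helper61.PD

open MvPolynomial Matrix

/-- the vector of `1` and the variables of the block `0` -/
noncomputable def bv {k : Type} [Field k] {n m : ℕ} (c : Fin n → Option (Fin (m + 1))) :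
    Option {i : Fin n // c i = some 0} → MvPolynomial (Fin n) k
  | none => 1
  | some i => X (i : Fin n)

section main

variable {k : Type} [Field k] [IsAlgClosed k] [CharZero k] {n m : ℕ}
  (c : Fin n → Option (Fin (m + 1)))

/-- the field of rational functions of the parameters -/
abbrev FF (k : Type) [Field k] {n m : ℕ} (c : Fin n → Option (Fin (m + 1))) : Type :=
  FractionRing (MvPolynomial (Pr c) k)

/-- `f` as a polynomial over the field of rational functions of the parameters -/
noncomputable def Ps (k : Type) [Field k] {n m : ℕ} (c : Fin n → Option (Fin (m + 1))) :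
    MvPolynomial (Fin n) k →+* MvPolynomial (Fin (Fintype.card (Vr c))) (FF k c) :=
  (map (algebraMap (MvPolynomial (Pr c) k) (FF k c))).comp (Ph c k : MvPolynomial (Fin n) k →+* _)

omit [IsAlgClosed k] [CharZero k] in
theorem Ps_apply (f : MvPolynomial (Fin n) k) :
    Ps k c f = map (algebraMap (MvPolynomial (Pr c) k) (FF k c)) (Ph c k f) := rfl

omit [IsAlgClosed k] [CharZero k] in
theorem Ps_inj : Function.Injective (Ps k c) := by
  have h1 : Function.Injective (map (σ := Fin (Fintype.card (Vr c)))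
      (algebraMap (MvPolynomial (Pr c) k) (FF k c))) :=
    map_injective _ (IsFractionRing.injective _ _)
  exact h1.comp (Ph c k).injective

omit [IsAlgClosed k] [CharZero k] in
theorem supp_Ps (f : MvPolynomial (Fin n) k) (d' : Fin (Fintype.card (Vr c)) →₀ ℕ)
    (hd : d' ∈ (Ps k c f).support) : ∃ d ∈ f.support, ∀ j, d' j = d ((eT c).symm j) :=
  supp_Ph c f d' (support_map_subset _ _ hd)

theorem sum_block (a : Fin (m + 1)) (g : Fin n → ℕ) :
    ∑ j with bT c j = a, g ((eT c).symm j) = ∑ i with c i = some a, g i := by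
  classical
  rw [Finset.sum_subtype (Finset.univ.filter fun j => bT c j = a) (p := fun j => bT c j = a)
    (by simp), Finset.sum_subtype (Finset.univ.filter fun i => c i = some a)
    (p := fun i => c i = some a) (by simp)]
  exact Fintype.sum_equiv (eB c a) _ _ fun j => rfl

theorem dominated (f : MvPolynomial (Fin n) k) (hf : Irreducible f)
    (h2 : ∀ d ∈ f.support, ∑ i with c i = some 0, d i ≤ 2)
    (h4 : ∀ d ∈ f.support, ∀ j : Fin m, ∑ i with c i = some j.succ, d i ≤ 4)
    (h0 : ∃ i, c i = some 0 ∧ degreeOf i f ≠ 0)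
    (hcard : 2 ^ (Fintype.card {i : Fin n // c i = none}) <
      Fintype.card {i : Fin n // c i = some 0} + 2)
    (D : Matrix (Option {i : Fin n // c i = some 0}) (Option {i : Fin n // c i = some 0})
      (MvPolynomial (Fin n) k)) (hs : D.IsSymm)
    (hD : ∀ a a' i, c i = some 0 → degreeOf i (D a a') = 0) (hdet : D.det ≠ 0)
    (hfD : f = bv c ⬝ᵥ D *ᵥ bv c) :
    ∃ (q : ℕ) (P : Fin n → FractionRing (MvPolynomial (Fin q) k))
      (W : FractionRing (MvPolynomial (Fin q) k)), AlgebraicIndependent k P ∧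
        W ^ 2 = aeval P f := by
  classical
  set f2 := Ps k c f with hf2
  obtain ⟨i0, hi0, hdeg0⟩ := h0
  -- irreducible over the field of rational functions of the parameters
  have hprime : Prime (Ph c k f) := by
    have h1 : Prime f := UniqueFactorizationMonoid.irreducible_iff_prime.1 hf
    exact (MulEquiv.prime_iff (Ph c k).toMulEquiv).2 h1
  have hi0' : ¬ c i0 = none := by rw [hi0]; simp
  set j0 := eT c ⟨i0, hi0'⟩ with hj0
  have hj0' : (e0 c).symm (Sum.inl j0) = i0 := by
    rw [e0_symm_inl, hj0, Equiv.symm_apply_apply]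
  have hdeg : degreeOf j0 (Ph c k f) ≠ 0 := by
    intro h
    have h1 : pderiv i0 f ≠ 0 := by
      intro h3
      exact Pool.Agent.R867.Mov.not_dvd_pderiv (f := f) (Nat.one_le_iff_ne_zero.2 hdeg0)
        (h3 ▸ dvd_zero f)
    apply h1
    apply (Ph c k).injective
    rw [map_zero]
    have h3 : pderiv j0 (Ph c k f) = Ph c k (pderiv i0 f) := by
      rw [Ph, AlgEquiv.trans_apply, AlgEquiv.trans_apply, pderiv_sumAlgEquiv]
      congr 1
      rw [renameEquiv_apply, renameEquiv_apply]
      have h5 : (Sum.inl j0 : _ ⊕ Pr c) = e0 c i0 := by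
        rw [← hj0', Equiv.apply_symm_apply]
      rw [h5]
      exact pderiv_rename (e0 c).injective i0 f
    rw [← h3]
    apply pderiv_eq_zero_of_notMem_vars
    intro hmem
    rw [mem_vars] at hmem
    obtain ⟨d, hd, hdi⟩ := hmem
    have h6 := monomial_le_degreeOf j0 hd
    rw [h] at h6
    rw [Finsupp.mem_support_iff] at hdi
    omega
  have hirr : Irreducible f2 := irr_frac hprime j0 hdeg
  -- the degrees
  have g2 : ∀ d ∈ f2.support, ∑ j with bT c j = 0, d j ≤ 2 := by
    intro d hd
    obtain ⟨d0, hd0, h1⟩ := supp_Ps c f d hd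
    rw [Finset.sum_congr rfl (fun j _ => h1 j), sum_block c 0 (fun i => d0 i)]
    exact h2 d0 hd0
  have g4 : ∀ d ∈ f2.support, ∀ j : Fin m, ∑ i with bT c i = j.succ, d i ≤ 4 := by
    intro d hd a
    obtain ⟨d0, hd0, h1⟩ := supp_Ps c f d hd
    rw [Finset.sum_congr rfl (fun j _ => h1 j), sum_block c a.succ (fun i => d0 i)]
    exact h4 d0 hd0 a
  have gdeg : ∀ (p : MvPolynomial (Fin n) k) (j : Fin (Fintype.card (Vr c))),
      degreeOf ((eT c).symm j : Fin n) p = 0 → degreeOf j (Ps k c p) = 0 := by
    intro p j h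
    rw [degreeOf_eq_sup, ← Nat.le_zero, Finset.sup_le_iff]
    intro d hd
    obtain ⟨d0, hd0, h1⟩ := supp_Ps c p d hd
    rw [h1, ← h]
    exact monomial_le_degreeOf _ hd0
  have g0 : ∃ j, bT c j = 0 ∧ degreeOf j f2 ≠ 0 := by
    refine ⟨j0, ?_, ?_⟩
    · have h1 := some_bT c j0
      rw [hj0, Equiv.symm_apply_apply] at h1
      exact (Option.some_injective _ (hi0.symm.trans h1)).symm
    · rw [hf2, Ps_apply]
      unfold degreeOf
      rw [degrees_map_of_injective _ (IsFractionRing.injective _ _)]
      exact hdeg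
  -- the matrix
  let tI : Option {j : Fin (Fintype.card (Vr c)) // bT c j = 0} ≃ Option {i : Fin n // c i = some 0} :=
    Equiv.optionCongr (eB c 0)
  let M : Matrix (Option {j : Fin (Fintype.card (Vr c)) // bT c j = 0})
      (Option {j : Fin (Fintype.card (Vr c)) // bT c j = 0})
      (MvPolynomial (Fin (Fintype.card (Vr c))) (FF k c)) := (D.map (Ps k c)).submatrix tI tI
  have hMs : M.IsSymm := by
    refine Matrix.ext fun a a' => ?_
    show Ps k c (D (tI a') (tI a)) = Ps k c (D (tI a) (tI a'))
    rw [hs.apply]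
  have hMd : ∀ a a' i, bT c i = 0 → degreeOf i (M a a') = 0 := by
    intro a a' i hi
    apply gdeg
    apply hD
    rw [some_bT c, hi]
  have hMdet : M.det ≠ 0 := by
    have h1 : M.det = Ps k c D.det := by
      show ((D.map (Ps k c)).submatrix tI tI).det = _
      rw [Matrix.det_submatrix_equiv_self, RingHom.map_det]
      rfl
    rw [h1]
    exact fun h => hdet (Ps_inj c (h.trans (map_zero _).symm))
  have hY : ∀ a, Ps k c (bv c (tI a)) = Pool.Agent.N230.FC.Yv (k := FF k c) (bT c) a := by
    intro a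
    rcases a with _ | a
    · show Ps k c 1 = 1
      rw [map_one]
    · show Ps k c (X ((eT c).symm a.1 : Fin n)) = X a.1
      rw [Ps_apply, ← e0_symm_inl c, Ph_X_inl, map_X]
  have hfM : f2 = Pool.Agent.N230.FC.Yv (k := FF k c) (bT c) ⬝ᵥ
      M *ᵥ Pool.Agent.N230.FC.Yv (k := FF k c) (bT c) := by
    rw [hf2, hfD]
    simp only [dotProduct, mulVec, map_sum, map_mul]
    rw [← Equiv.sum_comp tI]
    refine Finset.sum_congr rfl fun a _ => ?_
    rw [hY, ← Equiv.sum_comp tI]
    congr 1
    refine Finset.sum_congr rfl fun a' _ => ?_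
    rw [hY]
    rfl
  -- the function field
  have hcF : CharZero (FF k c) := charZero_of_injective_algebraMap (algebraMap k (FF k c)).injective
  obtain ⟨K, _, _, x, w, hx, hw, htop⟩ := Pool.Agent.N128.DQ.exists_field f2 hirr Nat.prime_two
  have htr : Algebra.trdeg k (FF k c) ≤ (Fintype.card {i : Fin n // c i = none} : ℕ) := by
    have h1 : Algebra.IsAlgebraic (MvPolynomial (Pr c) k) (FF k c) :=
      IsLocalization.isAlgebraic _ (nonZeroDivisors (MvPolynomial (Pr c) k))
    have h3 : Algebra.trdeg k (MvPolynomial (Pr c) k) +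
        Algebra.trdeg (MvPolynomial (Pr c) k) (FF k c) = Algebra.trdeg k (FF k c) :=
      trdeg_add_eq k (MvPolynomial (Pr c) k)
    have h4 : Algebra.trdeg (MvPolynomial (Pr c) k) (FF k c) = 0 := trdeg_eq_zero
    rw [h4, add_zero, MvPolynomial.trdeg_of_isDomain] at h3
    rw [← h3]
    simp
  have hcard' : 2 ^ (Fintype.card {i : Fin n // c i = none}) <
      Fintype.card {j : Fin (Fintype.card (Vr c)) // bT c j = 0} + 2 := by
    rw [Fintype.card_congr (eB c 0)]
    exact hcard
  obtain ⟨q1, ⟨σ⟩⟩ := Pool.Agent.N230.FC.dom_of_big (k := k) (F := FF k c) (bT c) hirr g2 g4 g0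
    htr hcard' M hMs hMd hMdet hfM hx hw htop
  let _ : Algebra k K := ((algebraMap (FF k c) K).comp (algebraMap k (FF k c))).toAlgebra
  have _ : IsScalarTower k (FF k c) K := IsScalarTower.of_algebraMap_eq fun _ => rfl
  let ρ : MvPolynomial (Pr c) k ≃ₐ[k] MvPolynomial (Fin (Fintype.card (Pr c))) k :=
    renameEquiv k (Fintype.equivFin _)
  let φ0 : MvPolynomial (Pr c) k →ₐ[k]
      FractionRing (MvPolynomial (Fin (Fintype.card (Pr c))) k) :=
    (IsScalarTower.toAlgHom k (MvPolynomial (Fin (Fintype.card (Pr c))) k)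
      (FractionRing (MvPolynomial (Fin (Fintype.card (Pr c))) k))).comp ρ.toAlgHom
  have hφ0 : Function.Injective φ0 := by
    have h1 : Function.Injective (algebraMap (MvPolynomial (Fin (Fintype.card (Pr c))) k)
      (FractionRing (MvPolynomial (Fin (Fintype.card (Pr c))) k))) := IsFractionRing.injective _ _
    exact h1.comp ρ.injective
  let φ : FF k c →ₐ[k] FractionRing (MvPolynomial (Fin (Fintype.card (Pr c))) k) :=
    IsFractionRing.liftAlgHom (K := FF k c) (g := φ0) hφ0
  obtain ⟨q, ⟨ψ⟩⟩ := Pool.Agent.N230.FC.uni_base σ φ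
  let θ : Fin n → K := fun i => aeval x (Ps k c (X i))
  have hΘ : ∀ p : MvPolynomial (Fin n) k, aeval θ p = aeval x (Ps k c p) := by
    intro p
    induction p using MvPolynomial.induction_on with
    | C a =>
      rw [aeval_C, Ps_apply]
      have h1 : Ph c k (C a) = C (C a) := by
        rw [Ph, AlgEquiv.trans_apply, renameEquiv_apply, rename_C, sumAlgEquiv_C_inl]
      rw [h1, map_C, aeval_C, IsScalarTower.algebraMap_apply k (FF k c) K]
      congr 1
    | add p q hp hq => rw [map_add, hp, hq, map_add, map_add]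
    | mul_X p i hp => rw [map_mul, hp, aeval_X, map_mul, map_mul]
  refine ⟨q, fun i => ψ (θ i), ψ w, ?_, ?_⟩
  · have h1 : ∀ p : MvPolynomial (Fin n) k, aeval (fun i => ψ (θ i)) p = ψ (aeval x (Ps k c p)) := by
      intro p
      rw [← hΘ, ← MvPolynomial.comp_aeval_apply]
    intro p p' hpp
    rw [h1, h1] at hpp
    exact Ps_inj c (hx (ψ.toRingHom.injective hpp))
  · rw [← map_pow, hw, hf2, ← hΘ, MvPolynomial.comp_aeval_apply]

end main

end Pool.Agent.Helper61.PD
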